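import Pool.Agent.Helper48.OD.St

/-! Project OD of helper48 (MP_b3ce06_al), module EC4. -/

set_option autoImplicit false

namespace Pool.Agent.Helper58.OD

open Pool.Agent.Helper43.GD Pool.Agent.Helper48.OD

private theorem neg_ne {L : Type} [CommRing L] (hnt : Nontrivial L) (h2 : IsUnit (2 : L)) :
    (-1 : Lˣ) ≠ 1 := by
  intro h
  have h' : (-1 : L) = 1 := by
    have := congrArg Units.val h
    simpa using this
  apply h2.ne_zero
  linear_combination -h'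

/-- an odd power of `v` generates `v` -/
private theorem pow_gen {L : Type} [CommRing L] (v : Lˣ) (s j : ℕ) (hs : v ^ (2 ^ s) = 1)
    (hj : Odd j) : ∃ n : ℕ, (v ^ j) ^ n = v := by
  rcases Nat.eq_zero_or_pos s with h0 | h0
  · subst h0
    rw [pow_zero, pow_one] at hs
    exact ⟨0, by rw [hs]; simp⟩
  · have hc : Nat.Coprime j (2 ^ s) :=
      (Nat.Coprime.pow_left s (Nat.coprime_two_left.2 hj)).symm
    have h1 : 1 < 2 ^ s := Nat.one_lt_two_pow h0.ne'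
    obtain ⟨n, hn⟩ := Nat.exists_mul_mod_eq_one_of_coprime hc h1
    refine ⟨n, ?_⟩
    rw [← pow_mul]
    have h2 := Nat.div_add_mod (j * n) (2 ^ s)
    rw [hn.2] at h2
    rw [← h2, pow_add, pow_mul, hs, one_pow, pow_one, one_mul]

private theorem gn_pow {L : Type} [CommRing L] (v : Lˣ) (j n : ℕ) (hg : Gn (v : L))
    (h : (v ^ j) ^ n = v) : Gn ((v ^ j : Lˣ) : L) := by
  rw [gn_iff] at hg ⊢
  intro R hR
  apply hg R
  rw [← h, Units.val_pow_eq_pow_val]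
  exact R.pow_mem hR _

/-- two odd elements `y v^i`, `y v^j` differ by an odd element -/
private theorem od_diff {L : Type} [CommRing L] (y v : Lˣ) (i d : ℕ) (hi : Od (y * v ^ i))
    (hj : Od (y * v ^ (i + d))) : Od (v ^ d) := by
  have h := hj.mul hi.inv
  have e : y * v ^ (i + d) * (y * v ^ i)⁻¹ = v ^ d := by
    rw [pow_add, mul_inv_eq_iff_eq_mul]
    rw [mul_comm (v ^ i) (v ^ d), ← mul_assoc, mul_comm y (v ^ d), mul_assoc]
  rwa [e] at h

theorem hEC4 (h1 : StUP) (h2 : StEG) (h3 : StCYC) : StEC4 := by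
  intro a L A _ _ Q x v hE hx hv hnt hui
  have hfin : Finite L := hE.fin
  obtain ⟨-, -, hg⟩ := h2 a L A Q x v hE hx hv
  have hne : (-1 : Lˣ) ≠ 1 := neg_ne hnt hE.two
  obtain ⟨b, rfl⟩ : ∃ b, a = b + 3 := ⟨a - 3, by have := hE.a3; omega⟩
  have hva : v ^ (2 ^ (b + 2)) = -1 := hE.va
  have hva1 : v ^ (2 ^ (b + 3)) = 1 := by
    rw [pow_succ, pow_mul, hva]; simp
  have hgm : Gd Q (-1 : Lˣ) := by
    have := hg (2 ^ (b + 2)) (by rw [hva]; exact hne)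
    rwa [hva] at this
  have hin2 : Q.In (2 : L) := by
    have := hgm.2
    rw [Units.val_neg, Units.val_one, sub_neg_eq_add] at this
    rwa [one_add_one_eq_two] at this
  have ev2 : Ev (v ^ 2) := ⟨2 ^ (b + 1), by
    rw [← pow_mul, ← pow_succ']; exact hva⟩
  have ev4 : Ev (v ^ 4) := ⟨2 ^ b, by
    rw [← pow_mul]
    have : 4 * 2 ^ b = 2 ^ (b + 2) := by ring
    rw [this]; exact hva⟩
  -- for odd `j`: `v^j` is Good and generates
  have hgood : ∀ j : ℕ, Odd j → Gd Q (v ^ j) ∧ Gn ((v ^ j : Lˣ) : L) := by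
    intro j hj
    refine ⟨hg j ?_, ?_⟩
    · intro h
      apply hne
      have e : (v ^ j) ^ (2 ^ (b + 2)) = -1 := by
        rw [← pow_mul, mul_comm, pow_mul, hva, hj.neg_one_pow]
      rw [h, one_pow] at e
      exact e.symm
    · obtain ⟨n, hn⟩ := pow_gen v (b + 3) j hva1 hj
      exact gn_pow v j n hE.gv hn
  -- at most one exponent is bad
  have hbad : ∀ y ∈ Q.U, (Ev (y * v ^ 1) ∧ Ev (y * v ^ 3)) ∨ (Ev (y * v ^ 1) ∧ Ev (y * v ^ 5)) ∨
      (Ev (y * v ^ 3) ∧ Ev (y * v ^ 5)) := by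
    intro y hy
    have e : ∀ j : ℕ, Ev (y * v ^ j) ∨ Od (y * v ^ j) := fun j =>
      hui.ev_or_od (Q.U.mul_mem hy (Q.U.pow_mem hv.1 j))
    have n13 : ¬ (Od (y * v ^ 1) ∧ Od (y * v ^ 3)) := fun h =>
      ev2.not_od hne (od_diff y v 1 2 h.1 h.2)
    have n35 : ¬ (Od (y * v ^ 3) ∧ Od (y * v ^ 5)) := fun h =>
      ev2.not_od hne (od_diff y v 3 2 h.1 h.2)
    have n15 : ¬ (Od (y * v ^ 1) ∧ Od (y * v ^ 5)) := fun h =>
      ev4.not_od hne (od_diff y v 1 4 h.1 h.2)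
    have e1 := e 1
    have e3 := e 3
    have e5 := e 5
    tauto
  refine { fin := hE.fin, nt := hnt, two := hE.two, ui := hui, in2 := hin2, th := ?_, z2 := ?_,
           sh := ?_, xi := ?_ }
  · refine ⟨v ^ (2 ^ (b + 1)), Q.U.pow_mem hv.1 _, ?_⟩
    rw [← pow_mul, ← pow_succ]
    exact hva
  · intro ζ hζ ht hn
    rcases h3 L Q.U v ζ (b + 2) hui hv.1 hζ hva ht with ⟨m, hm⟩ | ⟨m, hm⟩
    · exact h1.1 L A Q v ζ m hv hE.gv hζ hm
    · rw [← hm]
      apply hg m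
      rw [hm]
      exact hn
  · intro y₁ hy₁ y₂ hy₂ _ _
    have b1 := hbad y₁ hy₁
    have b2 := hbad y₂ hy₂
    have hc : (Ev (y₁ * v ^ 1) ∧ Ev (y₂ * v ^ 1)) ∨ (Ev (y₁ * v ^ 3) ∧ Ev (y₂ * v ^ 3)) ∨
        (Ev (y₁ * v ^ 5) ∧ Ev (y₂ * v ^ 5)) := by tauto
    rcases hc with h | h | h
    · exact ⟨v ^ 1, (hgood 1 (by decide)).1, (hgood 1 (by decide)).2, h.1, h.2⟩
    · exact ⟨v ^ 3, (hgood 3 (by decide)).1, (hgood 3 (by decide)).2, h.1, h.2⟩
    · exact ⟨v ^ 5, (hgood 5 (by decide)).1, (hgood 5 (by decide)).2, h.1, h.2⟩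
  · exact ⟨v, ⟨_, hva⟩, hv, hE.gv⟩

end Pool.Agent.Helper58.OD
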